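import Pool.Agent.Y223.G.Stm2

/-!
# The ideal of the fixed points is principal outside the vertex (part G-RPRIN of project G)
-/

set_option autoImplicit false

namespace Pool.Agent.Y223.G

open IsLocalRing Pool.Agent.W418.LU2

namespace RPrin

section gen

variable {k K : Type} [CommRing k] [Field K] [Algebra k K]

/-- An element of the Laurent polynomials lies in the ideal `Q` of the subalgebra `R`. -/
def InQ (R : Subalgebra k (LP K)) (Q : Ideal R) (f : LP K) : Prop :=
  ∃ h : f ∈ R, (⟨f, h⟩ : R) ∈ Q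

variable {R : Subalgebra k (LP K)} {Q : Ideal R}

lemma inQ_zero : InQ R Q 0 := ⟨R.zero_mem, Q.zero_mem⟩

lemma inQ_add {f g : LP K} (hf : InQ R Q f) (hg : InQ R Q g) : InQ R Q (f + g) :=
  ⟨R.add_mem hf.1 hg.1, Q.add_mem hf.2 hg.2⟩

lemma inQ_mul {f g : LP K} (hf : f ∈ R) (hg : InQ R Q g) : InQ R Q (f * g) :=
  ⟨R.mul_mem hf hg.1, Q.mul_mem_left ⟨f, hf⟩ hg.2⟩

lemma inQ_smul {g : LP K} (r : k) (hg : InQ R Q g) : InQ R Q (r • g) := by
  rw [Algebra.smul_def]
  exact inQ_mul (R.algebraMap_mem r) hg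

lemma inQ_or (hQ : Q.IsPrime) {f g : LP K} (hf : f ∈ R) (hg : g ∈ R) (h : InQ R Q (f * g)) :
    InQ R Q f ∨ InQ R Q g := by
  have h1 : (⟨f, hf⟩ : R) * ⟨g, hg⟩ ∈ Q := h.2
  rcases hQ.mem_or_mem h1 with h2 | h2
  · exact Or.inl ⟨hf, h2⟩
  · exact Or.inr ⟨hg, h2⟩

lemma not_inQ_one (hQ : Q.IsPrime) : ¬ InQ R Q 1 := by
  rintro ⟨h1, h2⟩
  exact hQ.ne_top ((Ideal.eq_top_iff_one Q).2 h2)

lemma inQ_pow (hQ : Q.IsPrime) {f : LP K} (hf : f ∈ R) {n : ℕ} (h : InQ R Q (f ^ n)) :
    InQ R Q f := by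
  have h1 : (⟨f, hf⟩ : R) ^ n ∈ Q := h.2
  exact ⟨hf, hQ.mem_of_pow_mem n h1⟩

/-- If the generators of positive degree lie in `Q`, then all elements of positive degree do. -/
lemma pos_mem {S : Set (LP K)} (hR : R = Algebra.adjoin k S)
    (hS : ∀ s ∈ S, ∃ (d : ℤ) (a : K), s = hm d a ∧ (0 < d → InQ R Q s)) :
    ∀ f ∈ R, ∀ d : ℤ, 0 < d → InQ R Q (hm d (f.coeff d)) := by
  intro f hf
  obtain ⟨M, hM⟩ : ∃ M : Submodule k (LP K), M =
    Submodule.span k {g | g ∈ R ∧ ∃ (d : ℤ) (a : K), g = hm d a ∧ (0 < d → InQ R Q g)} :=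
    ⟨_, rfl⟩
  have hmul : ∀ x ∈ M, ∀ y ∈ M, x * y ∈ M := by
    intro x hx y hy
    subst hM
    induction hx using Submodule.span_induction with
    | mem g hg =>
      obtain ⟨hg, e, a, rfl, h1⟩ := hg
      induction hy using Submodule.span_induction with
      | mem g' hg' =>
        obtain ⟨hg', e', a', rfl, h2⟩ := hg'
        refine Submodule.subset_span ⟨R.mul_mem hg hg', _, _, hm_mul _ _ _ _, ?_⟩
        intro h3
        by_cases h4 : 0 < e
        · rw [mul_comm]; exact inQ_mul hg' (h1 h4)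
        · exact inQ_mul hg (h2 (by omega))
      | zero => rw [mul_zero]; exact Submodule.zero_mem _
      | add x y _ _ hx hy => rw [mul_add]; exact Submodule.add_mem _ hx hy
      | smul r x _ hx => rw [mul_smul_comm]; exact Submodule.smul_mem _ r hx
    | zero => rw [zero_mul]; exact Submodule.zero_mem _
    | add x y _ _ hx hy => rw [add_mul]; exact Submodule.add_mem _ hx hy
    | smul r x _ hx => rw [smul_mul_assoc]; exact Submodule.smul_mem _ r hx
  have hfM : f ∈ M := by
    have hf' : f ∈ Algebra.adjoin k S := hR ▸ hf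
    induction hf' using Algebra.adjoin_induction with
    | mem x hx =>
      obtain ⟨d, a, h1, h2⟩ := hS x hx
      rw [hM]
      exact Submodule.subset_span ⟨hR ▸ Algebra.subset_adjoin hx, d, a, h1, h2⟩
    | algebraMap r =>
      rw [hM]
      exact Submodule.subset_span ⟨R.algebraMap_mem r, 0, _, algebraMap_LP r,
        fun h => absurd h (lt_irrefl _)⟩
    | add x y hx' hy' hx hy => exact M.add_mem (hx (hR ▸ hx')) (hy (hR ▸ hy'))
    | mul x y hx' hy' hx hy => exact hmul x (hx (hR ▸ hx')) y (hy (hR ▸ hy'))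
  intro d hd
  subst hM
  clear hmul hf
  induction hfM using Submodule.span_induction with
  | mem g hg =>
    obtain ⟨hg, e, a, rfl, h2⟩ := hg
    rw [coeff_hm]
    split_ifs with h1
    · rw [← h1]; exact h2 (by omega)
    · rw [hm_zero]; exact inQ_zero
  | zero =>
    rw [AddMonoidAlgebra.coeff_zero, Finsupp.zero_apply, hm_zero]
    exact inQ_zero
  | add x y _ _ hx hy =>
    rw [AddMonoidAlgebra.coeff_add, Finsupp.add_apply, hm_add]
    exact inQ_add hx hy
  | smul r x _ hx =>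
    rw [AddMonoidAlgebra.coeff_smul, Finsupp.smul_apply, ← smul_hm]
    exact inQ_smul r hx

lemma tl_hm (τ : K ≃ₐ[k] K) (d : ℤ) (a : K) : tl τ (hm d a) = hm d (τ a) := by
  unfold tl hm
  exact AddMonoidAlgebra.mapAlgHom_single _ _ _

lemma tl_hm_sub (τ : K ≃ₐ[k] K) (d : ℤ) (a : K) : tl τ (hm d a) - hm d a = hm d (df τ a) := by
  rw [tl_hm, ← hm_sub]; rfl

end gen

section RRs

variable {k O K : Type} [CommRing k] [CommRing O] [Field K] [Algebra k O] [Algebra O K]
  [Algebra k K] [IsScalarTower k O K] {τ : K ≃ₐ[k] K} {p : ℕ} {𝔓 : Ideal O} {l : ℕ}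
  {C : Subalgebra O K}

omit [Algebra k O] [IsScalarTower k O K] in
lemma df_mem (hC : ∀ c ∈ C, τ c ∈ C) {c : K} (hc : c ∈ C) (a : ℕ) : (df τ)^[a] c ∈ C := by
  induction a with
  | zero => exact hc
  | succ a ih =>
    rw [Function.iterate_succ_apply']
    exact C.sub_mem (hC _ ih) ih

omit [Algebra k O] [IsScalarTower k O K] in
lemma tinv_mem : hm (-1) 1 ∈ RR k τ p 𝔓 l C :=
  Algebra.subset_adjoin (Or.inl (Or.inl rfl))

omit [Algebra k O] [IsScalarTower k O K] in
lemma e_mem {e : O} (he : e ∈ 𝔓) : hm 1 (algebraMap O K e) ∈ RR k τ p 𝔓 l C :=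
  Algebra.subset_adjoin (Or.inl (Or.inr ⟨e, he, rfl⟩))

omit [Algebra k O] [IsScalarTower k O K] in
lemma gen_mem {a : ℕ} (ha : a < p) {c : K} (hc : c ∈ C) :
    hm (wt l a) ((df τ)^[a] c) ∈ RR k τ p 𝔓 l C :=
  Algebra.subset_adjoin (Or.inr ⟨a, c, hc, ha, rfl⟩)

omit [Algebra k O] [IsScalarTower k O K] in
lemma zero_mem (hp : 0 < p) {c : K} (hc : c ∈ C) : hm 0 c ∈ RR k τ p 𝔓 l C := by
  have h := gen_mem (k := k) (τ := τ) (𝔓 := 𝔓) (l := l) hp hc
  have h1 : ((wt l 0 : ℕ) : ℤ) = 0 := by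
    unfold wt; split_ifs <;> simp
  rw [h1] at h
  exact h

omit [Algebra k O] [IsScalarTower k O K] in
lemma pow_mem (hp : 0 < p) (n : ℕ) : ∀ e ∈ 𝔓 ^ n, hm n (algebraMap O K e) ∈ RR k τ p 𝔓 l C := by
  induction n with
  | zero =>
    intro e _
    exact zero_mem hp (C.algebraMap_mem e)
  | succ n ih =>
    intro e he
    rw [pow_succ] at he
    induction he using Submodule.mul_induction_on' with
    | mem_mul_mem a ha b hb =>
      rw [map_mul, Nat.cast_add, Nat.cast_one, ← hm_mul]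
      exact Subalgebra.mul_mem _ (ih a ha) (e_mem hb)
    | add x _ y _ hx hy =>
      rw [map_add, hm_add]
      exact Subalgebra.add_mem _ hx hy

/-- The prime of `O` under `Q`. -/
def q0 (R : Subalgebra k (LP K)) (Q : Ideal R) (O : Type) [CommRing O] [Algebra O K]
    (h0 : ∀ o : O, hm 0 (algebraMap O K o) ∈ R) : Ideal O where
  carrier := {o | InQ R Q (hm 0 (algebraMap O K o))}
  add_mem' := by
    intro a b ha hb
    change InQ R Q _
    rw [map_add, hm_add]
    exact inQ_add ha hb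
  zero_mem' := by
    change InQ R Q _
    rw [map_zero, hm_zero]
    exact inQ_zero
  smul_mem' := by
    intro c x hx
    change InQ R Q _
    have : hm 0 (algebraMap O K (c • x)) = hm 0 (algebraMap O K c) * hm 0 (algebraMap O K x) := by
      rw [hm_mul, smul_eq_mul, map_mul, add_zero]
    rw [this]
    exact inQ_mul (h0 c) hx

omit [Algebra k O] [IsScalarTower k O K] in
lemma q0_prime (R : Subalgebra k (LP K)) (Q : Ideal R) (hQ : Q.IsPrime)
    (h0 : ∀ o : O, hm 0 (algebraMap O K o) ∈ R) : (q0 R Q O h0).IsPrime := by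
  constructor
  · intro h
    have h1 : (1 : O) ∈ q0 R Q O h0 := by rw [h]; exact Submodule.mem_top
    have h2 : InQ R Q (hm 0 (algebraMap O K 1)) := h1
    rw [map_one, hm_one] at h2
    exact not_inQ_one hQ h2
  · intro a b hab
    have h2 : InQ R Q (hm 0 (algebraMap O K (a * b))) := hab
    have : hm 0 (algebraMap O K (a * b)) = hm 0 (algebraMap O K a) * hm 0 (algebraMap O K b) := by
      rw [hm_mul, map_mul, add_zero]
    rw [this] at h2
    exact inQ_or hQ (h0 a) (h0 b) h2

omit [Algebra k O] [IsScalarTower k O K] in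
/-- The binomial formula: `p (τ - 1) c = (τ - 1) y`. -/
lemma binom (hp : 2 ≤ p) (c : K) (hord : τ^[p] c = c) :
    (p : K) * df τ c = df τ (-∑ m ∈ Finset.range (p - 1), (p.choose (m + 2)) • (df τ)^[m + 1] c) := by
  obtain ⟨D, hD⟩ : ∃ D : Module.End k K, D = τ.toLinearMap - 1 := ⟨_, rfl⟩
  have hDf : (D : K → K) = df τ := by
    rw [hD]; rfl
  have h1 : (D + 1) ^ p = ∑ m ∈ Finset.range (p + 1), D ^ m * 1 ^ (p - m) * (p.choose m) :=
    (Commute.one_right D).add_pow p
  have h2 : ((D + 1) ^ p) c = c := by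
    have : D + 1 = τ.toLinearMap := by rw [hD, sub_add_cancel]
    rw [this, Module.End.pow_apply]
    exact hord
  rw [h1] at h2
  obtain ⟨q, rfl⟩ : ∃ q, p = q + 2 := ⟨p - 2, by omega⟩
  have h3 : ∀ m, (D ^ m * 1 ^ (q + 2 - m) * ((q + 2).choose m) : Module.End k K) c =
      ((q + 2).choose m) • (df τ)^[m] c := by
    intro m
    rw [one_pow, mul_one, ← nsmul_eq_mul', LinearMap.smul_apply, Module.End.pow_apply, hDf]
  rw [LinearMap.sum_apply, Finset.sum_congr rfl (fun m _ => h3 m),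
    Finset.sum_range_succ', Finset.sum_range_succ'] at h2
  have e : q + 2 - 1 = q + 1 := by omega
  rw [e, ← hDf, map_neg, map_sum, hDf]
  simp only [Nat.choose_zero_right, one_smul, Function.iterate_zero, id_eq, zero_add,
    Nat.choose_one_right, Function.iterate_one, add_eq_right] at h2
  rw [eq_neg_iff_add_eq_zero, add_comm, ← nsmul_eq_mul, ← h2]
  congr 1
  refine Finset.sum_congr rfl fun m _ => ?_
  rw [← hDf, map_nsmul, hDf, ← Function.iterate_succ_apply' (df τ)]

end RRs

lemma wt_pos {l a : ℕ} (h : 0 < wt l a) : 1 ≤ a := by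
  unfold wt at h
  split_ifs at h
  · omega
  · rcases Nat.eq_zero_or_pos a with h1 | h1
    · rw [h1, zero_mul] at h; omega
    · exact h1

end RPrin

open RPrin in
/-- The ideal of the fixed points is principal outside the vertex. -/
theorem t_RPRIN : S_RSTAB → S_RPRIN := by
  intro hST k O K _ _ _ _ _ _ _ _ _ p τ t 𝔓 l hW C hC Q hQ hv
  obtain ⟨R, hR⟩ : ∃ R, R = RR k τ p 𝔓 l C := ⟨_, rfl⟩
  have hst := hST k O K p τ t 𝔓 l hW C hC
  have hp2 : 2 ≤ p := hW.pp.two_le
  have hp0 : 0 < p := by omega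
  have ht1 : hm (-1) 1 ∈ RR k τ p 𝔓 l C := tinv_mem
  have h0 : ∀ o : O, hm 0 (algebraMap O K o) ∈ RR k τ p 𝔓 l C :=
    fun o => zero_mem hp0 (C.algebraMap_mem o)
  have hq := q0_prime (RR k τ p 𝔓 l C) Q hQ h0
  -- some generator of positive degree is not in `Q`
  have hgen : (∃ e ∈ 𝔓, ¬ InQ _ Q (hm 1 (algebraMap O K e))) ∨
      (∃ (a : ℕ) (c : K), 1 ≤ a ∧ a < p ∧ c ∈ C ∧ ¬ InQ _ Q (hm (wt l a) ((df τ)^[a] c))) := by
    by_contra hcon
    push Not at hcon
    obtain ⟨hc1, hc2⟩ := hcon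
    obtain ⟨e, η, he, he0, hn⟩ := hv
    apply hn
    have h1 := pos_mem (Q := Q) (R := RR k τ p 𝔓 l C) rfl ?_ (hm e η) he e (by exact_mod_cast he0)
    · rw [coeff_hm_same] at h1
      exact h1.2
    · rintro s ((rfl | ⟨e, he, rfl⟩) | ⟨a, c, hc, ha, rfl⟩)
      · exact ⟨-1, 1, rfl, fun h => by omega⟩
      · exact ⟨1, _, rfl, fun _ => hc1 e he⟩
      · refine ⟨wt l a, _, rfl, fun h => ?_⟩
        have h' : 0 < wt l a := by exact_mod_cast h
        exact hc2 a c (wt_pos h') ha hc
  by_cases hT : InQ _ Q (hm (-1) (1 : K))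
  · -- `T⁻¹` in `Q`
    have hPt : 𝔓 ≠ ⊤ := by
      intro h
      have h1 : hm 1 (algebraMap O K 1) ∈ RR k τ p 𝔓 l C := e_mem (by rw [h]; exact Submodule.mem_top)
      have h2 := inQ_mul h1 hT
      rw [hm_mul, map_one, mul_one] at h2
      exact not_inQ_one hQ h2
    have hmax : 𝔓.IsMaximal := hW.mx.resolve_right hPt
    have hle : 𝔓 ≤ q0 (RR k τ p 𝔓 l C) Q O h0 := by
      intro e he
      change InQ _ Q _
      have h1 : hm 1 (algebraMap O K e) ∈ RR k τ p 𝔓 l C := e_mem he
      have h2 := inQ_mul h1 hT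
      rw [hm_mul, mul_one] at h2
      exact h2
    have hqP : 𝔓 = q0 (RR k τ p 𝔓 l C) Q O h0 := hmax.eq_of_le hq.ne_top hle
    -- it is enough to find `b`
    suffices h : ∃ b ∈ RR k τ p 𝔓 l C, ¬ InQ _ Q (hm l 1 * (tl τ b - b)) by
      obtain ⟨b, hb, hb2⟩ := h
      refine ⟨b, hb, fun c hc => ⟨hm l 1 * (tl τ b - b), (hst b hb).2, fun h => hb2 ⟨_, h⟩,
        hm l 1 * (tl τ c - c), (hst c hc).2, by ring⟩⟩
    rcases hgen with ⟨e, he, hne⟩ | ⟨a, c, ha1, hap, hc, hne⟩
    · obtain ⟨π, hπ, hπ2⟩ := hW.un hPt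
      refine ⟨hm 1 (algebraMap O K π), e_mem hπ, ?_⟩
      rw [tl_hm_sub, hm_mul, one_mul]
      have hdf : df τ (algebraMap O K π) = algebraMap O K (t π - π) := by
        rw [map_sub, ← hW.com]; rfl
      rw [hdf]
      intro hg
      apply hne
      obtain ⟨v, y, hy, hvy⟩ := Ideal.exists_mul_add_mem_pow_succ hW.ne (i := l + 1) (t π - π)
        (e ^ (l + 1)) (hW.dv π) hπ2 (Ideal.pow_mem_pow he _)
      refine inQ_pow hQ (e_mem he) (n := l + 1) ?_
      have h1 := inQ_mul (h0 v) hg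
      have h2 := inQ_mul (pow_mem (k := k) (τ := τ) (l := l) (C := C) hp0 _ y hy) hT
      have h3 := inQ_add h1 h2
      rw [hm_mul, hm_mul, mul_one] at h3
      rw [hm_pow]
      have e1 : (0 : ℤ) + (l + 1) = (l + 1 : ℕ) * 1 := by push_cast; ring
      have e2 : ((l + 1 + 1 : ℕ) : ℤ) + -1 = (l + 1 : ℕ) * 1 := by push_cast; ring
      rw [e1, e2, ← hm_add, ← map_mul, ← map_add, mul_comm v, hvy, map_pow] at h3
      exact h3
    · by_cases hl : l = 0
      · subst hl
        by_cases ha : a = 1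
        · subst ha
          have hpq : ¬ InQ _ Q (hm 0 (algebraMap O K (p : O))) := by
            intro h
            have h1 : (p : O) ∈ q0 (RR k τ p 𝔓 0 C) Q O h0 := h
            rw [← hqP] at h1
            exact hW.p0 rfl hPt h1
          refine ⟨hm 1 (-∑ m ∈ Finset.range (p - 1), (p.choose (m + 2)) • (df τ)^[m + 1] c), ?_, ?_⟩
          · let N : AddSubgroup K :=
              { carrier := {x | hm 1 x ∈ RR k τ p 𝔓 0 C}
                add_mem' := fun {x y} hx hy => by
                  change hm 1 (x + y) ∈ RR k τ p 𝔓 0 C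
                  rw [hm_add]; exact Subalgebra.add_mem _ hx hy
                zero_mem' := by
                  change hm 1 (0 : K) ∈ RR k τ p 𝔓 0 C
                  rw [hm_zero]; exact Subalgebra.zero_mem _
                neg_mem' := fun {x} hx => by
                  change hm 1 (-x) ∈ RR k τ p 𝔓 0 C
                  rw [hm_neg]; exact Subalgebra.neg_mem _ hx }
            refine N.neg_mem (N.sum_mem fun m hm' => N.nsmul_mem ?_ _)
            have h1 : m + 1 < p := by
              have := Finset.mem_range.1 hm'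
              omega
            have h2 := gen_mem (k := k) (τ := τ) (𝔓 := 𝔓) (l := 0) h1 hc
            have h3 : wt 0 (m + 1) = 1 := by unfold wt; simp
            rw [h3] at h2
            exact h2
          · rw [tl_hm_sub, ← binom hp2 c (hW.ord c), hm_mul, one_mul]
            intro h
            have e1 : hm (((0 : ℕ) : ℤ) + 1) ((p : K) * df τ c) =
                hm 0 (algebraMap O K (p : O)) * hm (wt 0 1 : ℕ) ((df τ)^[1] c) := by
              rw [hm_mul, map_natCast]; rfl
            rw [e1] at h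
            rcases inQ_or hQ (h0 _) (gen_mem hap hc) h with h1 | h1
            · exact hpq h1
            · exact hne h1
        · refine ⟨hm (wt 0 (a - 1) : ℕ) ((df τ)^[a - 1] c), gen_mem (by omega) hc, ?_⟩
          rw [tl_hm_sub, hm_mul, one_mul, ← Function.iterate_succ_apply' (df τ)]
          have e1 : (a - 1).succ = a := by omega
          have e2 : ((0 : ℕ) : ℤ) + (wt 0 (a - 1) : ℕ) = (wt 0 a : ℕ) := by
            have : wt 0 (a - 1) = wt 0 a := by
              unfold wt
              rw [if_pos rfl, if_pos rfl]; omega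
            rw [this]; simp
          rw [e1, e2]
          exact hne
      · refine ⟨hm (wt l (a - 1) : ℕ) ((df τ)^[a - 1] c), gen_mem (by omega) hc, ?_⟩
        rw [tl_hm_sub, hm_mul, one_mul, ← Function.iterate_succ_apply' (df τ)]
        have e1 : (a - 1).succ = a := by omega
        have e2 : (l : ℤ) + (wt l (a - 1) : ℕ) = (wt l a : ℕ) := by
          have : l + wt l (a - 1) = wt l a := by
            unfold wt
            rw [if_neg hl, if_neg hl]
            obtain ⟨b, rfl⟩ : ∃ b, a = b + 1 := ⟨a - 1, by omega⟩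
            rw [Nat.add_sub_cancel]; ring
          rw [← this]; push_cast; ring
        rw [e1, e2]
        exact hne
  · -- `T⁻¹` not in `Q`
    have key : ∃ c ∈ C, ¬ InQ _ Q (hm 0 (df τ c)) := by
      by_contra hcon
      push Not at hcon
      have hqP : q0 (RR k τ p 𝔓 l C) Q O h0 = 𝔓 := by
        by_contra hne
        obtain ⟨o, ho⟩ := hW.rm _ hq hne
        apply ho
        change InQ _ Q _
        have h1 := hcon _ (C.algebraMap_mem o)
        have hdf : df τ (algebraMap O K o) = algebraMap O K (t o - o) := by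
          rw [map_sub, ← hW.com]; rfl
        rw [hdf] at h1
        exact h1
      have hdiv : ∀ (n : ℕ) (x : K), hm n x ∈ RR k τ p 𝔓 l C → InQ _ Q (hm 0 x) →
          InQ _ Q (hm n x) := by
        intro n x hx h
        have h1 : hm (-1) 1 ^ n * hm n x = hm 0 x := by
          rw [hm_pow, hm_mul, one_pow, one_mul]
          congr 1; ring
        rw [← h1] at h
        rcases inQ_or hQ (Subalgebra.pow_mem _ ht1 n) hx h with h2 | h2
        · exact absurd (inQ_pow hQ ht1 h2) hT
        · exact h2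
      rcases hgen with ⟨e, he, hne⟩ | ⟨a, c, ha1, hap, hc, hne⟩
      · apply hne
        have h1 : e ∈ q0 (RR k τ p 𝔓 l C) Q O h0 := by rw [hqP]; exact he
        exact hdiv 1 _ (e_mem he) h1
      · apply hne
        refine hdiv _ _ (gen_mem hap hc) ?_
        obtain ⟨b, rfl⟩ : ∃ b, a = b + 1 := ⟨a - 1, by omega⟩
        rw [Function.iterate_succ_apply' (df τ)]
        exact hcon _ (df_mem hC hc b)
    obtain ⟨c₀, hc₀, hne⟩ := key
    have hb : hm 0 c₀ ∈ RR k τ p 𝔓 l C := zero_mem hp0 hc₀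
    have hs : tl τ (hm 0 c₀) - hm 0 c₀ ∈ RR k τ p 𝔓 l C :=
      Subalgebra.sub_mem _ (hst _ hb).1 hb
    refine ⟨hm 0 c₀, hb, fun c hc => ⟨_, hs, fun h => hne ?_, tl τ c - c,
      Subalgebra.sub_mem _ (hst _ hc).1 hc, by ring⟩⟩
    rw [← tl_hm_sub]
    exact ⟨hs, h⟩

end Pool.Agent.Y223.G
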